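import Pool.Agent.Helper70.RT.Sheet

/-! Row REL of RT (helper74, after helper46's row of R8). -/

set_option autoImplicit false

namespace Pool.Helper70.RT

namespace S74

section
variable {R S : Type*} [CommRing R] [CommRing S]

theorem map_fI (f : R →+* S) (U V t : R) : f (fI U V t) = fI (f U) (f V) (f t) := by
  unfold fI q4 q3 q2 q1 q0 e2 e3 g0 h3 h2 h1 h0
  simp only [map_add, map_sub, map_mul, map_pow, map_neg, map_ofNat]

theorem map_fJ (f : R →+* S) (U V t : R) : f (fJ U V t) = fJ (f U) (f V) (f t) := by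
  unfold fJ q4 q3 q2 q1 q0 e2 e3 g0 h3 h2 h1 h0
  simp only [map_add, map_sub, map_mul, map_pow, map_neg, map_ofNat]

end

theorem castM {w : Par} (h : Cong w) (M : ℕ) (hM : (M : ℤ) = MM) :
    Int.castRingHom (ZMod M) w.1 = Int.castRingHom (ZMod M) 4 ∧
    Int.castRingHom (ZMod M) w.2.1 = Int.castRingHom (ZMod M) (-1) ∧
    Int.castRingHom (ZMod M) (w.2.2 ^ 2) = Int.castRingHom (ZMod M) (5 ^ 2) := by
  have key : ∀ a b : ℤ, MM ∣ a - b → Int.castRingHom (ZMod M) a = Int.castRingHom (ZMod M) b := by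
    intro a b hab
    rw [← sub_eq_zero, ← map_sub]
    exact (ZMod.intCast_zmod_eq_zero_iff_dvd _ M).2 (by rw [hM]; exact hab)
  refine ⟨key _ _ h.1, key _ _ ?_, ?_⟩
  · rw [sub_neg_eq_add]
    exact h.2.1
  · rw [map_pow, map_pow, key _ _ h.2.2]

theorem fI_val : fI (4 : ℤ) (-1) (5 ^ 2) = -(48 * (-408862721905456359817)) := by decide +kernel

theorem fJ_val : fJ (4 : ℤ) (-1) (5 ^ 2) = -(1728 * 3499921804209042887289278309476) := by
  decide +kernel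

theorem fI_dvd {w : Par} (h : Cong w) (M : ℕ) (hM : (M : ℤ) = MM) :
    MM ∣ fI w.1 w.2.1 (w.2.2 ^ 2) - fI 4 (-1) (5 ^ 2) := by
  rw [← hM]
  refine (ZMod.intCast_zmod_eq_zero_iff_dvd _ M).1 ?_
  have h1 := map_fI (Int.castRingHom (ZMod M)) w.1 w.2.1 (w.2.2 ^ 2)
  have h2 := map_fI (Int.castRingHom (ZMod M)) 4 (-1) (5 ^ 2)
  obtain ⟨c1, c2, c3⟩ := castM h M hM
  rw [c1, c2, c3, ← h2] at h1
  rw [Int.cast_sub, sub_eq_zero]
  exact h1

theorem fJ_dvd {w : Par} (h : Cong w) (M : ℕ) (hM : (M : ℤ) = MM) :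
    MM ∣ fJ w.1 w.2.1 (w.2.2 ^ 2) - fJ 4 (-1) (5 ^ 2) := by
  rw [← hM]
  refine (ZMod.intCast_zmod_eq_zero_iff_dvd _ M).1 ?_
  have h1 := map_fJ (Int.castRingHom (ZMod M)) w.1 w.2.1 (w.2.2 ^ 2)
  have h2 := map_fJ (Int.castRingHom (ZMod M)) 4 (-1) (5 ^ 2)
  obtain ⟨c1, c2, c3⟩ := castM h M hM
  rw [c1, c2, c3, ← h2] at h1
  rw [Int.cast_sub, sub_eq_zero]
  exact h1

theorem divr {d g F v a : ℤ} (hd : 0 < d) (hg : d * g = 1728) (hv : v = -(d * a))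
    (h : MM ∣ F - v) : d * ((-F) / d) = -F ∧ ((QQ.factorial : ℕ) : ℤ) ∣ (-F) / d - a := by
  obtain ⟨k, hk⟩ := h
  unfold MM at hk
  rw [← hg] at hk
  have e1 : -F = d * (a - g * (((QQ.factorial : ℕ) : ℤ) * k)) := by
    rw [hv] at hk
    linear_combination -hk
  have e2 : (-F) / d = a - g * (((QQ.factorial : ℕ) : ℤ) * k) := by
    rw [e1, Int.mul_ediv_cancel_left _ hd.ne']
  rw [e2]
  refine ⟨e1.symm, ⟨-(g * k), by ring⟩⟩

end S74

open S74 in
/-- row REL -/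
theorem st_REL : ST_REL := by
  intro w hw
  have hM : ((1728 * QQ.factorial : ℕ) : ℤ) = MM := by
    unfold MM
    push_cast
    ring
  obtain ⟨a1, a2⟩ := divr (by norm_num) (by norm_num : (48 : ℤ) * 36 = 1728) fI_val
    (fI_dvd hw _ hM)
  obtain ⟨b1, b2⟩ := divr (by norm_num) (by norm_num : (1728 : ℤ) * 1 = 1728) fJ_val
    (fJ_dvd hw _ hM)
  rw [sub_neg_eq_add] at a2
  exact ⟨a1, b1, a2, b2⟩

end Pool.Helper70.RT
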